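import Pool.Agent.Y251.LT.Stm

/-!
Project LT: no pole of order at least two.
-/

set_option autoImplicit false

open MeasureTheory Complex Metric Set Filter Topology
open scoped Real ComplexConjugate

namespace Pool.Agent.Y997.LT

open Pool.Agent.Y251.LT

theorem norm_exp_sub_one (v : ℝ) : ‖Complex.exp (-((v : ℂ) * I)) - 1‖ ≤ |v| := by
  have h := Real.norm_exp_I_mul_ofReal_sub_one_le (x := -v)
  have h2 : Complex.exp (-((v : ℂ) * I)) = Complex.exp (I * ((-v : ℝ) : ℂ)) := by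
    congr 1
    push_cast
    ring
  rw [h2]
  simpa using h

theorem norm_exp_mul_sub_one (m : ℕ) (v : ℝ) :
    ‖Complex.exp ((m : ℂ) * ((v : ℂ) * I)) - 1‖ ≤ m * |v| := by
  have h := Real.norm_exp_I_mul_ofReal_sub_one_le (x := m * v)
  have h2 : Complex.exp ((m : ℂ) * ((v : ℂ) * I)) = Complex.exp (I * ((m * v : ℝ) : ℂ)) := by
    congr 1
    push_cast
    ring
  rw [h2]
  refine h.trans ?_
  rw [Real.norm_eq_abs, abs_mul, Nat.abs_cast]

/-- the analytic part of the estimate -/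
theorem int_ne_zero (hLAP : S_LAP) (m : ℕ) (hm : 2 ≤ m) (X a ε : ℝ) (ha : a = 1 / (8 * m))
    (_hε0 : 0 ≤ ε) (hε : ε = a ^ 2 / 100) (hX : 1 ≤ X) (hX1 : 100 ≤ X * (1 + m) * a ^ 2)
    (hX2 : 4 * π * (1 + m) * X * Real.exp (-(X * a ^ 2 / 10)) < 1)
    (b0 b1 b2 : ℝ → ℂ) (h0 : ∀ v, HasDerivAt b0 (I * b1 v) v)
    (h1 : ∀ v, HasDerivAt b1 (I * b2 v) v) (h10 : b1 0 = 1)
    (hb0 : ∀ v, ‖b0 v‖ ≤ 1 / m + 2 * ε) (hb00 : 1 / m - 2 * ε ≤ (b0 0).re)
    (hb2 : ∀ v, ‖b2 v - m‖ ≤ 3 * ε + m ^ 2 * |v|) :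
    ∫ v in (-π)..π, Complex.exp ((X : ℂ) * (Complex.exp (-((v : ℂ) * I)) + b0 v)) *
      Complex.exp (-((v : ℂ) * I)) ≠ 0 := by
  have hmR : (2 : ℝ) ≤ m := by exact_mod_cast hm
  have hm0 : (0 : ℝ) < m := by linarith
  have ha0 : 0 < a := by rw [ha]; positivity
  have ham : a * m = 1 / 8 := by rw [ha]; field_simp
  have ha1 : a ≤ 1 / 16 := by
    rw [ha, div_le_div_iff₀ (by positivity) (by norm_num)]
    linarith
  have hX0 : 0 < X := by linarith
  set A : ℝ := X * (1 + m) with hA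
  have hA0 : 0 < A := by positivity
  set E : ℝ → ℂ := fun v => (X : ℂ) * (Complex.exp (-((v : ℂ) * I)) + b0 v) with hE
  have he : ∀ v : ℝ, HasDerivAt (fun v : ℝ => Complex.exp (-((v : ℂ) * I)))
      (-(I * Complex.exp (-((v : ℂ) * I)))) v := by
    intro v
    have h2 : HasDerivAt (fun w : ℂ => Complex.exp (-(w * I)))
        (Complex.exp (-((v : ℂ) * I)) * (-(1 * I))) (v : ℂ) :=
      (((hasDerivAt_id (v : ℂ)).mul_const I).neg).cexp
    have h3 := h2.comp_ofReal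
    convert h3 using 1
    ring
  have hEd : ∀ v : ℝ, HasDerivAt E
      ((X : ℂ) * (-(I * Complex.exp (-((v : ℂ) * I))) + I * b1 v)) v := fun v =>
    ((he v).add (h0 v)).const_mul (X : ℂ)
  have hsq : ∀ v : ℝ, HasDerivAt (fun v : ℝ => ((A / 2 * v ^ 2 : ℝ) : ℂ)) ((A * v : ℝ) : ℂ) v := by
    intro v
    have h2 : HasDerivAt (fun v : ℝ => A / 2 * v ^ 2) (A * v) v := by
      have h3 : HasDerivAt (fun v : ℝ => A / 2 * v ^ 2) (A / 2 * (2 * v)) v := by
        simpa using (hasDerivAt_pow 2 v).const_mul (A / 2)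
      have h4 : A / 2 * (2 * v) = A * v := by ring
      rwa [h4] at h3
    exact h2.ofReal_comp
  have hlin : ∀ v : ℝ, HasDerivAt (fun v : ℝ => ((A * v : ℝ) : ℂ)) ((A : ℝ) : ℂ) v := by
    intro v
    have h2 : HasDerivAt (fun v : ℝ => A * v) A v := by
      simpa using (hasDerivAt_id v).const_mul A
    exact h2.ofReal_comp
  set P : ℝ → ℂ := fun v => E v - E 0 + ((A / 2 * v ^ 2 : ℝ) : ℂ) with hP
  set P1 : ℝ → ℂ := fun v => (X : ℂ) * (-(I * Complex.exp (-((v : ℂ) * I))) + I * b1 v) +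
    ((A * v : ℝ) : ℂ) with hP1
  have hPd : ∀ v : ℝ, HasDerivAt P (P1 v) v := fun v => ((hEd v).sub_const (E 0)).add (hsq v)
  have hP1d : ∀ v : ℝ, HasDerivAt P1 ((X : ℂ) * (-(I * -(I * Complex.exp (-((v : ℂ) * I)))) +
      I * (I * b2 v)) + ((A : ℝ) : ℂ)) v := by
    intro v
    exact (((((he v).const_mul I).neg).add ((h1 v).const_mul I)).const_mul (X : ℂ)).add (hlin v)
  have hP2 : ∀ v : ℝ, |v| ≤ a → ‖(X : ℂ) * (-(I * -(I * Complex.exp (-((v : ℂ) * I)))) +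
      I * (I * b2 v)) + ((A : ℝ) : ℂ)‖ ≤ 15 / 100 * A := by
    intro v hv
    have h2 : (X : ℂ) * (-(I * -(I * Complex.exp (-((v : ℂ) * I)))) + I * (I * b2 v)) +
        ((A : ℝ) : ℂ) = (X : ℂ) * (-(Complex.exp (-((v : ℂ) * I)) - 1) - (b2 v - m)) := by
      rw [hA]
      push_cast
      linear_combination ((X : ℂ) * Complex.exp (-((v : ℂ) * I)) + (X : ℂ) * b2 v) * I_sq
    rw [h2, norm_mul, Complex.norm_real, Real.norm_of_nonneg hX0.le]
    have h3 : ‖-(Complex.exp (-((v : ℂ) * I)) - 1) - (b2 v - m)‖ ≤ |v| + (3 * ε + m ^ 2 * |v|) := by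
      refine (norm_sub_le _ _).trans ?_
      rw [norm_neg]
      exact add_le_add (norm_exp_sub_one v) (hb2 v)
    have h4 : |v| + (3 * ε + m ^ 2 * |v|) ≤ 15 / 100 * (1 + m) := by
      have h5 : (m : ℝ) ^ 2 * |v| ≤ m / 8 := by
        have h6 : (m : ℝ) ^ 2 * |v| ≤ m ^ 2 * a := mul_le_mul_of_nonneg_left hv (by positivity)
        have h7 : (m : ℝ) ^ 2 * a = m / 8 := by
          calc (m : ℝ) ^ 2 * a = m * (a * m) := by ring
            _ = m / 8 := by rw [ham]; ring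
        linarith
      have h6 : 3 * ε ≤ 1 / 1000 := by
        rw [hε]
        nlinarith
      nlinarith
    calc X * ‖-(Complex.exp (-((v : ℂ) * I)) - 1) - (b2 v - m)‖ ≤ X * (15 / 100 * (1 + m)) :=
          mul_le_mul_of_nonneg_left (h3.trans h4) hX0.le
      _ = 15 / 100 * A := by rw [hA]; ring
  have hP10 : P1 0 = 0 := by
    simp only [hP1, h10]
    simp
  have hP0 : P 0 = 0 := by
    simp only [hP]
    simp
  have hP1b : ∀ v : ℝ, |v| ≤ a → ‖P1 v‖ ≤ 15 / 100 * A * |v| := by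
    intro v hv
    have h2 := Convex.norm_image_sub_le_of_norm_hasDerivWithin_le (f := P1) (s := Icc (-a) a)
      (C := 15 / 100 * A) (x := 0) (y := v) (fun w _ => (hP1d w).hasDerivWithinAt)
      (fun w hw => hP2 w (abs_le.2 hw)) (convex_Icc _ _) ⟨by linarith, ha0.le⟩ (abs_le.1 hv)
    rw [hP10, sub_zero, sub_zero, Real.norm_eq_abs] at h2
    exact h2
  have hPb : ∀ v : ℝ, |v| ≤ a → ‖P v‖ ≤ 15 / 100 * (A * v ^ 2) := by
    intro v hv
    have h2 := Convex.norm_image_sub_le_of_norm_hasDerivWithin_le (f := P) (s := Icc (-|v|) |v|)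
      (C := 15 / 100 * A * |v|) (x := 0) (y := v) (fun w _ => (hPd w).hasDerivWithinAt)
      (fun w hw => (hP1b w ((abs_le.2 hw).trans hv)).trans
        (mul_le_mul_of_nonneg_left (abs_le.2 hw) (by positivity))) (convex_Icc _ _)
      ⟨by linarith [abs_nonneg v], abs_nonneg v⟩ (abs_le.1 le_rfl)
    rw [hP0, sub_zero, sub_zero, Real.norm_eq_abs] at h2
    calc ‖P v‖ ≤ 15 / 100 * A * |v| * |v| := h2
      _ = 15 / 100 * (A * v ^ 2) := by rw [← sq_abs]; ring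
  have hEc : Continuous E := continuous_iff_continuousAt.2 fun v => (hEd v).continuousAt
  have hmain := hLAP A a (fun v => E v - E 0) hA0 ha0 (by linarith) hX1
    (hEc.sub continuous_const).continuousOn (fun y hy => hPb y (abs_le.2 hy))
  -- the tails
  have hre : ∀ v : ℝ, (E v - E 0).re ≤ X * (Real.cos v - 1 + 4 * ε) := by
    intro v
    have h2 : (E v - E 0).re = X * (Real.cos v - 1 + ((b0 v).re - (b0 0).re)) := by
      simp only [hE]
      have h3 : (Complex.exp (-((v : ℂ) * I))).re = Real.cos v := by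
        rw [Complex.exp_re]
        simp
      rw [← mul_sub, Complex.re_ofReal_mul]
      simp only [Complex.sub_re, Complex.add_re, h3]
      simp
      left
      ring
    rw [h2]
    apply mul_le_mul_of_nonneg_left _ hX0.le
    have h3 : (b0 v).re ≤ ‖b0 v‖ := Complex.re_le_norm _
    have h4 := hb0 v
    linarith
  set F : ℝ → ℂ := fun v => Complex.exp (E v - E 0) * Complex.exp (-((v : ℂ) * I)) with hF
  have hFc : Continuous F := by
    apply Continuous.mul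
    · exact Complex.continuous_exp.comp (hEc.sub continuous_const)
    · fun_prop
  have hFn : ∀ v : ℝ, a ≤ |v| → |v| ≤ π → ‖F v‖ ≤ Real.exp (-(X * a ^ 2 / 10)) := by
    intro v hv1 hv2
    have h2 : ‖F v‖ = Real.exp ((E v - E 0).re) := by
      simp only [hF]
      rw [norm_mul, Complex.norm_exp, Complex.norm_exp]
      simp
    rw [h2]
    apply Real.exp_le_exp.2
    refine (hre v).trans ?_
    have h3 := Real.cos_le_one_sub_mul_cos_sq hv2
    have h4 : a ^ 2 ≤ v ^ 2 := by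
      rw [← sq_abs v]
      exact pow_le_pow_left₀ ha0.le hv1 2
    have hpi : π ^ 2 < 10 := by
      have := Real.pi_lt_d2
      have := Real.pi_pos
      nlinarith
    have h5 : (1 : ℝ) / 5 ≤ 2 / π ^ 2 := by
      rw [div_le_div_iff₀ (by norm_num) (by positivity)]
      linarith
    have h6 : (1 : ℝ) / 5 * a ^ 2 ≤ 2 / π ^ 2 * v ^ 2 :=
      mul_le_mul h5 h4 (by positivity) (by positivity)
    have h7 : Real.cos v - 1 + 4 * ε ≤ -(a ^ 2 / 10) := by
      rw [hε]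
      nlinarith
    calc X * (Real.cos v - 1 + 4 * ε) ≤ X * (-(a ^ 2 / 10)) :=
          mul_le_mul_of_nonneg_left h7 hX0.le
      _ = -(X * a ^ 2 / 10) := by ring
  have hpia : a ≤ π := by
    have := Real.pi_gt_three
    linarith
  have hint : ∀ c d : ℝ, IntervalIntegrable F volume c d := fun c d => hFc.intervalIntegrable c d
  have ht1 : ‖∫ v in (-π)..(-a), F v‖ ≤ Real.exp (-(X * a ^ 2 / 10)) * (π - a) := by
    have h2 := intervalIntegral.norm_integral_le_of_norm_le_const (f := F) (a := -π) (b := -a)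
      (C := Real.exp (-(X * a ^ 2 / 10))) (by
        intro v hv
        rw [uIoc_of_le (by linarith)] at hv
        apply hFn v
        · rw [abs_of_nonpos (by linarith [hv.2])]
          linarith [hv.2]
        · rw [abs_of_nonpos (by linarith [hv.2])]
          linarith [hv.1])
    rw [abs_of_nonneg (by linarith)] at h2
    calc _ ≤ _ := h2
      _ = _ := by ring
  have ht2 : ‖∫ v in a..π, F v‖ ≤ Real.exp (-(X * a ^ 2 / 10)) * (π - a) := by
    have h2 := intervalIntegral.norm_integral_le_of_norm_le_const (f := F) (a := a) (b := π)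
      (C := Real.exp (-(X * a ^ 2 / 10))) (by
        intro v hv
        rw [uIoc_of_le hpia] at hv
        apply hFn v
        · rw [abs_of_nonneg (by linarith [hv.1])]
          linarith [hv.1]
        · rw [abs_of_nonneg (by linarith [hv.1])]
          exact hv.2)
    rwa [abs_of_nonneg (by linarith)] at h2
  intro h
  have hF0 : ∫ v in (-π)..π, F v = 0 := by
    have h2 : ∀ v : ℝ, F v = Complex.exp (-E 0) * (Complex.exp ((X : ℂ) *
        (Complex.exp (-((v : ℂ) * I)) + b0 v)) * Complex.exp (-((v : ℂ) * I))) := by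
      intro v
      show Complex.exp (E v - E 0) * Complex.exp (-((v : ℂ) * I)) =
        Complex.exp (-E 0) * (Complex.exp (E v) * Complex.exp (-((v : ℂ) * I)))
      rw [sub_eq_add_neg, Complex.exp_add]
      ring
    simp only [h2]
    rw [intervalIntegral.integral_const_mul, h, mul_zero]
  have hsplit : ∫ v in (-π)..π, F v =
      (∫ v in (-π)..(-a), F v) + (∫ v in (-a)..a, F v) + ∫ v in a..π, F v := by
    rw [intervalIntegral.integral_add_adjacent_intervals (hint _ _) (hint _ _),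
      intervalIntegral.integral_add_adjacent_intervals (hint _ _) (hint _ _)]
  have hmid : ‖∫ v in (-a)..a, F v‖ ≤ 2 * (Real.exp (-(X * a ^ 2 / 10)) * (π - a)) := by
    have h2 : ∫ v in (-a)..a, F v = -(∫ v in (-π)..(-a), F v) - ∫ v in a..π, F v := by
      rw [hF0] at hsplit
      linear_combination (-1 : ℂ) * hsplit
    rw [h2]
    refine (norm_sub_le _ _).trans ?_
    rw [norm_neg]
    linarith
  have h3 : 1 / (2 * Real.sqrt A) ≤ 2 * (Real.exp (-(X * a ^ 2 / 10)) * (π - a)) :=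
    hmain.trans hmid
  have h4 : Real.sqrt A ≤ A := by
    have h5 : 1 ≤ A := by
      rw [hA]
      nlinarith
    rw [Real.sqrt_le_left (by linarith)]
    nlinarith
  have h5 : 0 < Real.sqrt A := Real.sqrt_pos.2 hA0
  rw [div_le_iff₀ (by positivity)] at h3
  have h6 : 0 < Real.exp (-(X * a ^ 2 / 10)) := Real.exp_pos _
  have h7 : 2 * (Real.exp (-(X * a ^ 2 / 10)) * (π - a)) * (2 * Real.sqrt A) ≤
      4 * π * (1 + m) * X * Real.exp (-(X * a ^ 2 / 10)) := by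
    calc 2 * (Real.exp (-(X * a ^ 2 / 10)) * (π - a)) * (2 * Real.sqrt A)
        ≤ 2 * (Real.exp (-(X * a ^ 2 / 10)) * π) * (2 * A) := by
          apply mul_le_mul _ (by linarith) (by positivity) (by positivity)
          apply mul_le_mul_of_nonneg_left _ (by norm_num)
          apply mul_le_mul_of_nonneg_left _ h6.le
          linarith
      _ = 4 * π * (1 + m) * X * Real.exp (-(X * a ^ 2 / 10)) := by rw [hA]; ring
  linarith

/-! ### The algebra of the pole -/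

/-- the point `exp (-ζ - i v)` -/
noncomputable def zz (ζ : ℂ) (v : ℝ) : ℂ := Complex.exp (-(ζ + (v : ℂ) * I))

theorem norm_zz (ζ : ℂ) (v : ℝ) : ‖zz ζ v‖ = Real.exp (-ζ.re) := by
  unfold zz
  rw [Complex.norm_exp]
  simp

/-- `exp (i m v) k (exp (-ζ - i v))` -/
noncomputable def WW (m : ℕ) (ζ : ℂ) (k : ℂ → ℂ) (v : ℝ) : ℂ :=
  Complex.exp ((m : ℂ) * ((v : ℂ) * I)) * k (zz ζ v)

/-- the effect of the derivative -/
noncomputable def nx (m : ℕ) (k : ℂ → ℂ) (z : ℂ) : ℂ := (m : ℂ) * k z - z * deriv k z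

theorem WW_deriv (m : ℕ) (ζ : ℂ) (k : ℂ → ℂ) (v : ℝ) (hk : DifferentiableAt ℂ k (zz ζ v)) :
    HasDerivAt (WW m ζ k) (I * WW m ζ (nx m k) v) v := by
  have h1 : HasDerivAt (fun w : ℂ => Complex.exp ((m : ℂ) * (w * I)))
      (Complex.exp ((m : ℂ) * ((v : ℂ) * I)) * ((m : ℂ) * (1 * I))) (v : ℂ) :=
    (((hasDerivAt_id (v : ℂ)).mul_const I).const_mul (m : ℂ)).cexp
  have h2 : HasDerivAt (fun w : ℂ => Complex.exp (-(ζ + w * I)))
      (Complex.exp (-(ζ + (v : ℂ) * I)) * (-(1 * I))) (v : ℂ) :=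
    ((((hasDerivAt_id (v : ℂ)).mul_const I).const_add ζ).neg).cexp
  have h3 : HasDerivAt k (deriv k (zz ζ v)) (Complex.exp (-(ζ + (v : ℂ) * I))) := hk.hasDerivAt
  have h4 : HasDerivAt (fun w : ℂ => k (Complex.exp (-(ζ + w * I))))
      (deriv k (zz ζ v) * (Complex.exp (-(ζ + (v : ℂ) * I)) * (-(1 * I)))) (v : ℂ) :=
    HasDerivAt.comp (v : ℂ) h3 h2
  have h5 := (h1.mul h4).comp_ofReal
  have h6 : Complex.exp ((m : ℂ) * ((v : ℂ) * I)) * ((m : ℂ) * (1 * I)) *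
      k (Complex.exp (-(ζ + (v : ℂ) * I))) + Complex.exp ((m : ℂ) * ((v : ℂ) * I)) *
      (deriv k (zz ζ v) * (Complex.exp (-(ζ + (v : ℂ) * I)) * (-(1 * I)))) =
      I * WW m ζ (nx m k) v := by
    simp only [WW, nx, zz]
    ring
  rw [← h6]
  exact h5

theorem nx_diff {m : ℕ} {k : ℂ → ℂ} {U : Set ℂ} (hU : IsOpen U) (hk : DifferentiableOn ℂ k U) :
    DifferentiableOn ℂ (nx m k) U :=
  (hk.const_mul (m : ℂ)).sub (differentiableOn_id.mul (hk.deriv hU))

theorem pol (h1 : S_ALN) (h2 : S_LAP) : S_POL := by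
  intro g t₀ κ m c R hκ hm hc hR hg hVan
  have hmR : (2 : ℝ) ≤ m := by exact_mod_cast hm
  have hm0 : (0 : ℝ) < m := by linarith
  have hmC : (m : ℂ) ≠ 0 := by
    have : (m : ℝ) ≠ 0 := hm0.ne'
    exact_mod_cast this
  set ρ : ℝ := Real.exp (-t₀) with hρ
  have hρ0 : 0 < ρ := Real.exp_pos _
  set h : ℂ → ℂ := fun z => c + z * R z with hh'
  have hhd : DifferentiableOn ℂ h (ball 0 ρ) :=
    (differentiableOn_const c).add (differentiableOn_id.mul hR)
  set k1 : ℂ → ℂ := nx m h with hk1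
  have hk1d : DifferentiableOn ℂ k1 (ball 0 ρ) := nx_diff isOpen_ball hhd
  set k2 : ℂ → ℂ := nx m k1 with hk2
  have hk2d : DifferentiableOn ℂ k2 (ball 0 ρ) := nx_diff isOpen_ball hk1d
  have h00 : h 0 = c := by simp [hh']
  have hk10 : k1 0 = m * c := by simp [hk1, nx, h00]
  have hk20 : k2 0 = m ^ 2 * c := by
    simp only [hk2, nx, hk10]
    ring
  set a : ℝ := 1 / (8 * m) with ha
  have ha0 : 0 < a := by rw [ha]; positivity
  have ha1 : a ≤ 1 / 16 := by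
    rw [ha, div_le_div_iff₀ (by positivity) (by norm_num)]
    linarith
  set ε : ℝ := a ^ 2 / 100 with hε
  have hε0 : 0 < ε := by positivity
  have hε1 : ε ≤ 1 / 1000 := by
    rw [hε]
    nlinarith
  have hcn : 0 < ‖c‖ := norm_pos_iff.2 hc
  -- the neighbourhood of `0`
  have hnb : ∀ᶠ z in 𝓝 (0 : ℂ), ‖h z - c‖ ≤ ε * ‖c‖ ∧ ‖k1 z - m * c‖ ≤ ε * ‖c‖ ∧
      ‖k2 z - m ^ 2 * c‖ ≤ ε * ‖c‖ := by
    have key : ∀ (k : ℂ → ℂ), DifferentiableOn ℂ k (ball 0 ρ) →
        ∀ᶠ z in 𝓝 (0 : ℂ), ‖k z - k 0‖ ≤ ε * ‖c‖ := by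
      intro k hk
      have h3 : ContinuousAt k 0 := (hk.differentiableAt (ball_mem_nhds 0 hρ0)).continuousAt
      have h4 : ContinuousAt (fun z => ‖k z - k 0‖) 0 := (h3.sub continuousAt_const).norm
      have h5 : (fun z => ‖k z - k 0‖) 0 < ε * ‖c‖ := by
        simp only [sub_self, norm_zero]
        positivity
      exact (h4.eventually (gt_mem_nhds h5)).mono fun z hz => le_of_lt hz
    have e0 := key h hhd
    have e1 := key k1 hk1d
    have e2 := key k2 hk2d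
    rw [h00] at e0
    rw [hk10] at e1
    rw [hk20] at e2
    filter_upwards [e0, e1, e2] with z f0 f1 f2 using ⟨f0, f1, f2⟩
  obtain ⟨δ, hδ, hδb⟩ := Metric.eventually_nhds_iff_ball.1 hnb
  -- the size of `X`
  have hXev : ∀ᶠ X : ℝ in atTop, 1 ≤ X ∧ 100 ≤ X * (1 + m) * a ^ 2 ∧
      4 * π * (1 + m) * X * Real.exp (-(X * a ^ 2 / 10)) < 1 := by
    have e1 : ∀ᶠ X : ℝ in atTop, 1 ≤ X := eventually_ge_atTop 1
    have e2 : ∀ᶠ X : ℝ in atTop, 100 / ((1 + m) * a ^ 2) ≤ X := eventually_ge_atTop _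
    have e3 : Tendsto (fun X : ℝ => X * (a ^ 2 / 10)) atTop atTop :=
      tendsto_id.atTop_mul_const (by positivity)
    have e4 := (Real.tendsto_pow_mul_exp_neg_atTop_nhds_zero 1).comp e3
    have e5 := e4.const_mul (4 * π * (1 + m) * (10 / a ^ 2))
    rw [mul_zero] at e5
    have e6 := e5.eventually (gt_mem_nhds (zero_lt_one' ℝ))
    filter_upwards [e1, e2, e6] with X f1 f2 f3
    refine ⟨f1, ?_, ?_⟩
    · rw [div_le_iff₀ (by positivity)] at f2
      linarith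
    · simp only [Function.comp] at f3
      have f4 : 4 * π * (1 + m) * X * Real.exp (-(X * a ^ 2 / 10)) =
          4 * π * (1 + m) * (10 / a ^ 2) * ((X * (a ^ 2 / 10)) ^ 1 *
            Real.exp (-(X * (a ^ 2 / 10)))) := by
        have f5 : X * a ^ 2 / 10 = X * (a ^ 2 / 10) := by ring
        rw [f5, pow_one]
        field_simp
      rw [f4]
      exact f3
  obtain ⟨X₀, hX₀⟩ := Filter.eventually_atTop.1 hXev
  -- the choice of `t`
  have htev : ∀ᶠ t : ℝ in atTop, t₀ < t ∧ 0 ≤ t ∧ Real.exp (-t) < δ ∧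
      max X₀ 1 ^ 2 ≤ κ * ‖c‖ * Real.exp t := by
    have e1 : ∀ᶠ t : ℝ in atTop, t₀ < t := eventually_gt_atTop t₀
    have e2 : ∀ᶠ t : ℝ in atTop, 0 ≤ t := eventually_ge_atTop 0
    have e3 : ∀ᶠ t : ℝ in atTop, Real.exp (-t) < δ :=
      Real.tendsto_exp_neg_atTop_nhds_zero.eventually (gt_mem_nhds hδ)
    have e4 : Tendsto (fun t : ℝ => κ * ‖c‖ * Real.exp t) atTop atTop :=
      Real.tendsto_exp_atTop.const_mul_atTop (by positivity)
    filter_upwards [e1, e2, e3, e4.eventually_ge_atTop (max X₀ 1 ^ 2)] with t f1 f2 f3 f4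
      using ⟨f1, f2, f3, f4⟩
  obtain ⟨t, ht0, htn, htδ, htX⟩ := htev.exists
  have htρ : Real.exp (-t) < ρ := Real.exp_lt_exp.2 (by linarith)
  have hz : ∀ ζ : ℂ, ζ.re = t → ∀ v : ℝ, zz ζ v ∈ ball (0 : ℂ) δ ∧ zz ζ v ∈ ball (0 : ℂ) ρ := by
    intro ζ hζ v
    rw [mem_ball_zero_iff, mem_ball_zero_iff, norm_zz, hζ]
    exact ⟨htδ, htρ⟩
  have hmc : (m : ℂ) * c ≠ 0 := mul_ne_zero hmC hc
  have hmcn : ‖(m : ℂ) * c‖ = m * ‖c‖ := by
    rw [norm_mul, Complex.norm_natCast]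
  set r : ℝ → ℂ := fun y => k1 (zz (t : ℂ) y) / ((m : ℂ) * c) - 1 with hr
  set h₀ : ℂ := -((m : ℂ) * c) * Complex.exp (((m : ℂ) - 1) * (t : ℂ)) with hh₀
  have hh₀0 : h₀ ≠ 0 := mul_ne_zero (neg_ne_zero.2 hmc) (Complex.exp_ne_zero _)
  have hzc : Continuous fun y : ℝ => zz (t : ℂ) y := by
    unfold zz
    fun_prop
  have hrc : Continuous r := by
    have h3 : Continuous fun y : ℝ => k1 (zz (t : ℂ) y) :=
      hk1d.continuousOn.comp_continuous hzc fun y => (hz _ (Complex.ofReal_re t) y).2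
    exact (h3.div_const _).sub continuous_const
  have hrb : ∀ y, ‖r y‖ ≤ 1 / 10 := by
    intro y
    have h3 := (hδb _ (hz _ (Complex.ofReal_re t) y).1).2.1
    have h4 : r y = (k1 (zz (t : ℂ) y) - m * c) / ((m : ℂ) * c) := by
      simp only [hr]
      rw [sub_div, div_self hmc]
    rw [h4, norm_div, hmcn, div_le_iff₀ (by positivity)]
    nlinarith
  obtain ⟨y₁, -, hy1, hy2⟩ := h1 r h₀ (m - 1) 0 (by linarith) hh₀0 hrc.continuousOn
    (fun y _ => hrb y)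
  set ζ₁ : ℂ := (t : ℂ) + (y₁ : ℂ) * I with hζ₁
  have hζre : ζ₁.re = t := by simp [hζ₁]
  set z₀ : ℂ := zz ζ₁ 0 with hz₀
  have hz₀' : z₀ = zz (t : ℂ) y₁ := by
    simp [hz₀, zz, hζ₁]
  set V : ℂ := -(Complex.exp ((m : ℂ) * ζ₁) * Complex.exp (-ζ₁) * k1 z₀) with hV
  have hVeq : h₀ * (Complex.exp (((((m : ℝ) - 1) * y₁ : ℝ) : ℂ) * I) * (1 + r y₁)) = V := by
    have h3 : 1 + r y₁ = k1 z₀ / ((m : ℂ) * c) := by
      simp only [hr]
      rw [hz₀']
      ring
    have h4 : Complex.exp ((m : ℂ) * ζ₁) * Complex.exp (-ζ₁) =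
        Complex.exp (((m : ℂ) - 1) * (t : ℂ)) *
          Complex.exp (((((m : ℝ) - 1) * y₁ : ℝ) : ℂ) * I) := by
      rw [← Complex.exp_add, ← Complex.exp_add]
      congr 1
      simp only [hζ₁]
      push_cast
      ring
    rw [h3, hV, h4, hh₀]
    field_simp
  rw [hVeq] at hy1 hy2
  have hVre : V = ((V.re : ℝ) : ℂ) := by
    apply Complex.ext
    · simp
    · simp [hy1]
  have hk1n : ∀ v : ℝ, ‖k1 (zz ζ₁ v) - m * c‖ ≤ ε * ‖c‖ := fun v =>
    (hδb _ (hz _ hζre v).1).2.1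
  have hk1z : (m - ε) * ‖c‖ ≤ ‖k1 z₀‖ := by
    have h3 := hk1n 0
    have h4 : ‖(m : ℂ) * c‖ ≤ ‖k1 z₀‖ + ‖k1 z₀ - m * c‖ := by
      have h5 : (m : ℂ) * c = k1 z₀ - (k1 z₀ - m * c) := by ring
      calc ‖(m : ℂ) * c‖ = ‖k1 z₀ - (k1 z₀ - m * c)‖ := by rw [← h5]
        _ ≤ _ := norm_sub_le _ _
    rw [hmcn] at h4
    linarith
  have hk1pos : 0 < ‖k1 z₀‖ := lt_of_lt_of_le (by
    have : 0 < (m : ℝ) - ε := by linarith
    positivity) hk1z
  have hk1ne : k1 z₀ ≠ 0 := norm_pos_iff.1 hk1pos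
  have hVn : κ * ‖c‖ * Real.exp t ≤ κ * V.re := by
    have h3 : V.re = ‖V‖ := by
      rw [hVre, Complex.norm_real, Real.norm_of_nonneg hy2.le]
      simp
    have h4 : ‖V‖ = Real.exp ((m - 1) * t) * ‖k1 z₀‖ := by
      rw [hV, norm_neg, norm_mul, ← Complex.exp_add, Complex.norm_exp]
      congr 2
      simp [hζ₁]
      ring
    have h5 : Real.exp t ≤ Real.exp ((m - 1) * t) := by
      apply Real.exp_le_exp.2
      nlinarith
    have h6 : ‖c‖ ≤ ‖k1 z₀‖ := by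
      refine le_trans ?_ hk1z
      nlinarith
    rw [h3, h4]
    have h7 : ‖c‖ * Real.exp t ≤ Real.exp ((m - 1) * t) * ‖k1 z₀‖ := by
      calc ‖c‖ * Real.exp t ≤ ‖k1 z₀‖ * Real.exp ((m - 1) * t) :=
            mul_le_mul h6 h5 (Real.exp_pos _).le hk1pos.le
        _ = _ := by ring
    nlinarith
  set X : ℝ := Real.sqrt (κ * V.re) with hX
  have hX2 : X ^ 2 = κ * V.re := Real.sq_sqrt (by positivity)
  have hXX : max X₀ 1 ≤ X := by
    apply Real.le_sqrt_of_sq_le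
    exact htX.trans hVn
  have hXX₀ : X₀ ≤ X := (le_max_left _ _).trans hXX
  obtain ⟨hXa, hXb, hXc⟩ := hX₀ X hXX₀
  have hXpos : 0 < X := by linarith
  have hXC : (X : ℂ) ≠ 0 := by exact_mod_cast hXpos.ne'
  have hX2C : (X : ℂ) ^ 2 = -(κ : ℂ) * (Complex.exp ((m : ℂ) * ζ₁) * Complex.exp (-ζ₁) * k1 z₀) := by
    have h3 : (X : ℂ) ^ 2 = (κ : ℂ) * V := by
      rw [hVre]
      exact_mod_cast hX2
    rw [h3, hV]
    ring
  -- the quotients
  have hWn : ∀ (k : ℂ → ℂ) (v : ℝ), ‖WW m ζ₁ k v‖ = ‖k (zz ζ₁ v)‖ := by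
    intro k v
    simp only [WW]
    rw [norm_mul, Complex.norm_exp]
    simp
  have hq0 : ∀ v : ℝ, ‖h (zz ζ₁ v) / k1 z₀ - 1 / m‖ ≤ 2 * ε := by
    intro v
    have h3 := (hδb _ (hz _ hζre v).1).1
    have h4 := hk1n 0
    have h5 : h (zz ζ₁ v) / k1 z₀ - 1 / m =
        ((m : ℂ) * (h (zz ζ₁ v) - c) - (k1 z₀ - m * c)) / ((m : ℂ) * k1 z₀) := by
      field_simp
      ring
    rw [h5, norm_div, norm_mul, Complex.norm_natCast, div_le_iff₀ (by positivity)]
    refine (norm_sub_le _ _).trans ?_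
    rw [norm_mul, Complex.norm_natCast]
    have h6 : (m : ℝ) * ‖h (zz ζ₁ v) - c‖ ≤ m * (ε * ‖c‖) := mul_le_mul_of_nonneg_left h3 hm0.le
    have h7 : 2 * ε * (m * ((m - ε) * ‖c‖)) ≤ 2 * ε * (m * ‖k1 z₀‖) := by gcongr
    have h8 : m * (ε * ‖c‖) + ε * ‖c‖ ≤ 2 * ε * (m * ((m - ε) * ‖c‖)) := by
      have h9 : (m : ℝ) + 1 ≤ 2 * (m * (m - ε)) := by nlinarith
      have h10 : 0 ≤ ε * ‖c‖ := by positivity
      nlinarith
    have h11 : ‖k1 z₀ - m * c‖ ≤ ε * ‖c‖ := h4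
    linarith
  have hq2 : ∀ v : ℝ, ‖k2 (zz ζ₁ v) / k1 z₀ - m‖ ≤ 3 * ε := by
    intro v
    have h3 := (hδb _ (hz _ hζre v).1).2.2
    have h4 : ‖k1 z₀ - m * c‖ ≤ ε * ‖c‖ := hk1n 0
    have h5 : k2 (zz ζ₁ v) / k1 z₀ - m =
        ((k2 (zz ζ₁ v) - m ^ 2 * c) - m * (k1 z₀ - m * c)) / (k1 z₀) := by
      field_simp
      ring
    rw [h5, norm_div, div_le_iff₀ hk1pos]
    refine (norm_sub_le _ _).trans ?_
    rw [norm_mul, Complex.norm_natCast]
    have h6 : (m : ℝ) * ‖k1 z₀ - m * c‖ ≤ m * (ε * ‖c‖) := mul_le_mul_of_nonneg_left h4 hm0.le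
    have h7 : 3 * ε * ((m - ε) * ‖c‖) ≤ 3 * ε * ‖k1 z₀‖ := by gcongr
    have h8 : ε * ‖c‖ + m * (ε * ‖c‖) ≤ 3 * ε * ((m - ε) * ‖c‖) := by
      have h9 : (1 : ℝ) + m ≤ 3 * (m - ε) := by linarith
      have h10 : 0 ≤ ε * ‖c‖ := by positivity
      nlinarith
    linarith
  have hne := int_ne_zero h2 m hm X a ε ha hε0.le hε hXa hXb hXc
    (fun v => WW m ζ₁ h v / k1 z₀) (fun v => WW m ζ₁ k1 v / k1 z₀)
    (fun v => WW m ζ₁ k2 v / k1 z₀)
    (fun v => by
      have h3 := (WW_deriv m ζ₁ h v (hhd.differentiableAt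
        (isOpen_ball.mem_nhds (hz _ hζre v).2))).div_const (k1 z₀)
      rwa [mul_div_assoc] at h3)
    (fun v => by
      have h3 := (WW_deriv m ζ₁ k1 v (hk1d.differentiableAt
        (isOpen_ball.mem_nhds (hz _ hζre v).2))).div_const (k1 z₀)
      rwa [mul_div_assoc] at h3)
    (by
      simp only [WW]
      rw [← hz₀]
      simp [hk1ne])
    (fun v => by
      have h3 : ‖WW m ζ₁ h v / k1 z₀‖ = ‖h (zz ζ₁ v) / k1 z₀‖ := by
        rw [norm_div, norm_div, hWn]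
      rw [h3]
      have h4 : h (zz ζ₁ v) / k1 z₀ = 1 / m + (h (zz ζ₁ v) / k1 z₀ - 1 / m) := by ring
      have h5 : ‖(1 : ℂ) / m‖ = 1 / m := by
        rw [norm_div, Complex.norm_natCast, norm_one]
      rw [h4]
      refine (norm_add_le _ _).trans ?_
      rw [h5]
      linarith [hq0 v])
    (by
      have h3 : WW m ζ₁ h 0 / k1 z₀ = 1 / m + (h (zz ζ₁ 0) / k1 z₀ - 1 / m) := by
        simp only [WW]
        simp
      simp only [h3]
      rw [Complex.add_re]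
      have h4 : ((1 : ℂ) / m).re = 1 / m := by
        have : (1 : ℂ) / m = ((1 / m : ℝ) : ℂ) := by push_cast; rfl
        rw [this, Complex.ofReal_re]
      have h5 := hq0 0
      have h6 := Complex.abs_re_le_norm (h (zz ζ₁ 0) / k1 z₀ - 1 / m)
      have h7 := (abs_le.1 (h6.trans h5)).1
      rw [h4]
      linarith)
    (fun v => by
      have h3 : WW m ζ₁ k2 v / k1 z₀ - m =
          Complex.exp ((m : ℂ) * ((v : ℂ) * I)) * (k2 (zz ζ₁ v) / k1 z₀ - m) +
            m * (Complex.exp ((m : ℂ) * ((v : ℂ) * I)) - 1) := by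
        simp only [WW]
        ring
      rw [h3]
      refine (norm_add_le _ _).trans ?_
      rw [norm_mul, norm_mul, Complex.norm_natCast]
      have h4 : ‖Complex.exp ((m : ℂ) * ((v : ℂ) * I))‖ = 1 := by
        rw [Complex.norm_exp]
        simp
      rw [h4, one_mul]
      have h5 := norm_exp_mul_sub_one m v
      have h6 : (m : ℝ) * ‖Complex.exp ((m : ℂ) * ((v : ℂ) * I)) - 1‖ ≤ m * (m * |v|) :=
        mul_le_mul_of_nonneg_left h5 hm0.le
      have h7 := hq2 v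
      calc _ ≤ 3 * ε + m * (m * |v|) := add_le_add h7 h6
        _ = _ := by ring)
  apply hne
  -- the vanishing integral
  have hs0 : (X : ℂ) * Complex.exp ζ₁ ≠ 0 := mul_ne_zero hXC (Complex.exp_ne_zero _)
  have hvan := hVan ((X : ℂ) * Complex.exp ζ₁) hs0 t (y₁ - π) ht0
  set f : ℝ → ℂ := fun y => Complex.exp ((X : ℂ) * Complex.exp ζ₁ *
    Complex.exp (-((t : ℂ) + (y : ℂ) * I)) -
    (κ : ℂ) * g ((t : ℂ) + (y : ℂ) * I) / ((X : ℂ) * Complex.exp ζ₁)) *
      Complex.exp (-((t : ℂ) + (y : ℂ) * I)) with hf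
  have hfv : ∀ v : ℝ, f (y₁ + v) = Complex.exp (-ζ₁) * (Complex.exp ((X : ℂ) *
      (Complex.exp (-((v : ℂ) * I)) + WW m ζ₁ h v / k1 z₀)) * Complex.exp (-((v : ℂ) * I))) := by
    intro v
    have h3 : (t : ℂ) + ((y₁ + v : ℝ) : ℂ) * I = ζ₁ + (v : ℂ) * I := by
      simp only [hζ₁]
      push_cast
      ring
    have h4 : t₀ < (ζ₁ + (v : ℂ) * I).re := by
      simp [hζre, ht0]
    have h5 : g (ζ₁ + (v : ℂ) * I) = Complex.exp ((m : ℂ) * ζ₁) * WW m ζ₁ h v := by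
      rw [hg _ h4]
      simp only [WW, zz, hh']
      rw [show (m : ℂ) * (ζ₁ + (v : ℂ) * I) = (m : ℂ) * ζ₁ + (m : ℂ) * ((v : ℂ) * I) by ring,
        Complex.exp_add]
      ring
    have h6 : Complex.exp (-(ζ₁ + (v : ℂ) * I)) = Complex.exp (-ζ₁) * Complex.exp (-((v : ℂ) * I)) := by
      rw [← Complex.exp_add]
      congr 1
      ring
    have h7 : Complex.exp ζ₁ * Complex.exp (-ζ₁) = 1 := by
      rw [← Complex.exp_add]
      simp
    have h8 : (X : ℂ) * Complex.exp ζ₁ * (Complex.exp (-ζ₁) * Complex.exp (-((v : ℂ) * I))) =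
        (X : ℂ) * Complex.exp (-((v : ℂ) * I)) := by
      linear_combination ((X : ℂ) * Complex.exp (-((v : ℂ) * I))) * h7
    have h9 : (κ : ℂ) * (Complex.exp ((m : ℂ) * ζ₁) * WW m ζ₁ h v) / ((X : ℂ) * Complex.exp ζ₁) =
        -((X : ℂ) * (WW m ζ₁ h v / k1 z₀)) := by
      rw [div_eq_iff hs0]
      have h10 : (X : ℂ) ^ 2 * Complex.exp ζ₁ =
          -(κ : ℂ) * Complex.exp ((m : ℂ) * ζ₁) * k1 z₀ := by
        rw [hX2C]
        linear_combination (-(κ : ℂ) * Complex.exp ((m : ℂ) * ζ₁) * k1 z₀) * h7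
      have h11 : -((X : ℂ) * (WW m ζ₁ h v / k1 z₀)) * ((X : ℂ) * Complex.exp ζ₁) =
          -(WW m ζ₁ h v / k1 z₀) * ((X : ℂ) ^ 2 * Complex.exp ζ₁) := by ring
      rw [h11, h10]
      field_simp
    simp only [hf]
    rw [h3, h5, h6, h8, h9]
    rw [show (X : ℂ) * Complex.exp (-((v : ℂ) * I)) - -((X : ℂ) * (WW m ζ₁ h v / k1 z₀)) =
      (X : ℂ) * (Complex.exp (-((v : ℂ) * I)) + WW m ζ₁ h v / k1 z₀) by ring]
    ring
  have hI : ∫ v in (-π)..π, f (y₁ + v) = 0 := by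
    rw [intervalIntegral.integral_comp_add_left]
    have h3 : y₁ + -π = y₁ - π := by ring
    have h4 : y₁ + π = y₁ - π + 2 * π := by ring
    rw [h3, h4]
    exact hvan
  simp only [hfv] at hI
  rw [intervalIntegral.integral_const_mul] at hI
  exact (mul_eq_zero.1 hI).resolve_left (Complex.exp_ne_zero _)

end Pool.Agent.Y997.LT
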